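import Mathlib

/-!
# Complement symmetry of weighted path sums in a rectangle
-/

namespace Pool.Agent.Results.MP_5ac669_co.ComplementSymmetry

open Finset MvPolynomial

/-! ### Definitions -/

/-- The field `ℂ(ħ, a_1, …, a_n)`; the variable with index `0` is `ħ` and the variable with index
`i`, `1 ≤ i ≤ n`, is `a_i`. -/
abbrev K (n : ℕ) := FractionRing (MvPolynomial (Fin (n + 1)) ℂ)

/-- The indeterminate `ħ`. -/
noncomputable def hbar (n : ℕ) : K n := algebraMap (MvPolynomial (Fin (n + 1)) ℂ) (K n) (X 0)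

/-- The indeterminate `a_i`, `1 ≤ i ≤ n`. -/
noncomputable def a (n i : ℕ) : K n :=
  if h : i < n + 1 then algebraMap (MvPolynomial (Fin (n + 1)) ℂ) (K n) (X ⟨i, h⟩) else 0

/-- The `(n - k) × k` rectangle of boxes. -/
def R (n k : ℕ) : Finset (ℕ × ℕ) := Icc 1 (n - k) ×ˢ Icc 1 k

/-- `S` is a Young diagram in the rectangle. -/
def IsYoung (n k : ℕ) (S : Finset (ℕ × ℕ)) : Prop :=
  S ⊆ R n k ∧ ∀ r c r' c' : ℕ, (r, c) ∈ S → (r', c') ∈ R n k → r' ≤ r → c' ≤ c → (r', c') ∈ S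

/-- The complement `λ^c` of `λ` in the rectangle. -/
def compl (n k : ℕ) (lam : Finset (ℕ × ℕ)) : Finset (ℕ × ℕ) :=
  (R n k \ lam).image fun e => (n - k + 1 - e.1, k + 1 - e.2)

/-- The set of the first `j` boxes `e_1, …, e_j` of a listing of the boxes of the rectangle. -/
def first {n k : ℕ} (e : Fin (k * (n - k)) ≃ {x // x ∈ R n k}) (j : ℕ) : Finset (ℕ × ℕ) :=
  ({t : Fin (k * (n - k)) | (t : ℕ) < j} : Finset _).image fun t => (e t : ℕ × ℕ)

/-- `e` lists every box of the rectangle exactly once, and is a path to `λ`. -/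
def IsPath {n k : ℕ} (lam : Finset (ℕ × ℕ)) (e : Fin (k * (n - k)) ≃ {x // x ∈ R n k}) : Prop :=
  ∀ j : ℕ, j ≤ k * (n - k) →
    IsYoung n k (lam \ first e j) ∧ IsYoung n k (lam ∪ ((R n k \ lam) ∩ first e j))

/-- The label `r - c + k` of the box `(r,c)`. -/
def label (k : ℕ) (b : ℕ × ℕ) : ℕ := b.1 + k - b.2

/-- `m_i^{(j)}`: the number of `t ≤ j` with `ℓ(e_t) = i`; for `i = n` it is set to be `0`. -/
def m {n k : ℕ} (e : Fin (k * (n - k)) ≃ {x // x ∈ R n k}) (j i : ℕ) : ℕ :=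
  if i = n then 0 else #{t : Fin (k * (n - k)) | (t : ℕ) < j ∧ label k (e t) = i}

/-- The weight `w_j(S)`. -/
noncomputable def w {n k : ℕ} (e : Fin (k * (n - k)) ≃ {x // x ∈ R n k}) (j : ℕ) : K n :=
  ∑ i ∈ Icc 1 (n - 1), (hbar n * (m e j i * ((m e j i : K n) - m e j (i + 1))) +
    m e j i * (a n (i + 1) - a n i))

open Classical in
/-- `𝕍(λ)`. -/
noncomputable def V (n k : ℕ) (lam : Finset (ℕ × ℕ)) : K n :=
  ∑ e : Fin (k * (n - k)) ≃ {x // x ∈ R n k} with IsPath lam e,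
    ∏ j ∈ Icc 1 (k * (n - k)), 1 / w e j

/-! ### The automorphism -/

/-- the images of the variables -/
noncomputable def gen (n : ℕ) (i : Fin (n + 1)) : MvPolynomial (Fin (n + 1)) ℂ :=
  if h : (i : ℕ) = 0 then X i else - X ⟨n + 1 - i, by omega⟩

theorem gen_gen (n : ℕ) : (aeval (gen n)).comp (aeval (gen n)) =
    AlgHom.id ℂ (MvPolynomial (Fin (n + 1)) ℂ) := by
  ext i : 1
  rw [AlgHom.comp_apply, aeval_X, AlgHom.id_apply]
  unfold gen
  by_cases h : (i : ℕ) = 0
  · rw [dif_pos h, aeval_X, dif_pos h]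
  · rw [dif_neg h, map_neg, aeval_X, dif_neg (by simp only; omega), neg_neg]
    congr 1
    ext
    simp only
    omega

/-- the automorphism of the polynomial ring -/
noncomputable def alphaP (n : ℕ) : MvPolynomial (Fin (n + 1)) ℂ ≃ₐ[ℂ] MvPolynomial (Fin (n + 1)) ℂ :=
  AlgEquiv.ofAlgHom (aeval (gen n)) (aeval (gen n)) (gen_gen n) (gen_gen n)

/-- the automorphism `α` -/
noncomputable def alpha (n : ℕ) : K n ≃ₐ[ℂ] K n :=
  IsFractionRing.algEquivOfAlgEquiv (alphaP n)

theorem alpha_hbar (n : ℕ) : alpha n (hbar n) = hbar n := by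
  unfold alpha hbar
  rw [IsFractionRing.algEquivOfAlgEquiv_algebraMap]
  congr 1
  show aeval (gen n) (X 0) = X 0
  rw [aeval_X]
  simp [gen]

theorem alpha_a (n i : ℕ) (h1 : 1 ≤ i) (h2 : i ≤ n) : alpha n (a n i) = - a n (n + 1 - i) := by
  unfold alpha a
  rw [dif_pos (by omega), dif_pos (by omega), IsFractionRing.algEquivOfAlgEquiv_algebraMap, ← map_neg]
  congr 1
  show aeval (gen n) (X _) = _
  rw [aeval_X]
  unfold gen
  rw [dif_neg (by simp only; omega)]

/-! ### The box map -/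

/-- the box map on pairs of natural numbers -/
def bm (n k : ℕ) (e : ℕ × ℕ) : ℕ × ℕ := (n - k + 1 - e.1, k + 1 - e.2)

theorem bm_mem {n k : ℕ} {e : ℕ × ℕ} (h : e ∈ R n k) : bm n k e ∈ R n k := by
  unfold R bm at *
  rw [mem_product, mem_Icc, mem_Icc] at *
  simp only
  omega

theorem bm_bm {n k : ℕ} {e : ℕ × ℕ} (h : e ∈ R n k) : bm n k (bm n k e) = e := by
  unfold R bm at *
  rw [mem_product, mem_Icc, mem_Icc] at h
  ext <;> simp only <;> omega

/-- the box map as a permutation of the boxes of the rectangle -/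
def phi (n k : ℕ) : {x // x ∈ R n k} ≃ {x // x ∈ R n k} where
  toFun x := ⟨bm n k x, bm_mem x.2⟩
  invFun x := ⟨bm n k x, bm_mem x.2⟩
  left_inv x := by ext1; exact bm_bm x.2
  right_inv x := by ext1; exact bm_bm x.2

theorem mem_compl {n k : ℕ} {S : Finset (ℕ × ℕ)} {x : ℕ × ℕ} :
    x ∈ compl n k S ↔ x ∈ R n k ∧ bm n k x ∉ S := by
  unfold compl
  rw [mem_image]
  constructor
  · rintro ⟨y, hy, rfl⟩
    rw [mem_sdiff] at hy
    refine ⟨bm_mem hy.1, ?_⟩
    have : bm n k (bm n k y) = y := bm_bm hy.1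
    intro h
    apply hy.2
    rw [← this]
    exact h
  · rintro ⟨h1, h2⟩
    exact ⟨bm n k x, mem_sdiff.2 ⟨bm_mem h1, h2⟩, bm_bm h1⟩

theorem compl_compl {n k : ℕ} {S : Finset (ℕ × ℕ)} (hS : S ⊆ R n k) :
    compl n k (compl n k S) = S := by
  ext x
  rw [mem_compl, mem_compl]
  constructor
  · rintro ⟨h1, h2⟩
    by_contra h3
    apply h2
    refine ⟨bm_mem h1, ?_⟩
    rwa [bm_bm h1]
  · intro h
    refine ⟨hS h, fun h2 => h2.2 ?_⟩
    rwa [bm_bm (hS h)]

theorem young_compl {n k : ℕ} {S : Finset (ℕ × ℕ)} (h : IsYoung n k S) :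
    IsYoung n k (compl n k S) := by
  refine ⟨fun x hx => (mem_compl.1 hx).1, ?_⟩
  intro r c r' c' h1 h2 hr hc
  rw [mem_compl] at h1 ⊢
  refine ⟨h2, fun h3 => h1.2 ?_⟩
  have h4 := h1.1
  have h5 : bm n k (r, c) ∈ R n k := bm_mem h4
  unfold bm at h3 h5 ⊢
  refine h.2 _ _ _ _ h3 h5 ?_ ?_
  · simp only; omega
  · simp only; omega

theorem mem_first {n k : ℕ} (e : Fin (k * (n - k)) ≃ {x // x ∈ R n k}) (j : ℕ) (x : ℕ × ℕ) :
    x ∈ first e j ↔ ∃ t : Fin (k * (n - k)), (t : ℕ) < j ∧ (e t : ℕ × ℕ) = x := by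
  unfold first
  simp only [mem_image, mem_filter, mem_univ, true_and]

theorem first_sub {n k : ℕ} (e : Fin (k * (n - k)) ≃ {x // x ∈ R n k}) (j : ℕ) :
    first e j ⊆ R n k := by
  intro x hx
  rw [mem_first] at hx
  obtain ⟨t, -, rfl⟩ := hx
  exact (e t).2

theorem mem_first_trans {n k : ℕ} (e : Fin (k * (n - k)) ≃ {x // x ∈ R n k}) (j : ℕ) (x : ℕ × ℕ)
    (hx : x ∈ R n k) :
    x ∈ first (e.trans (phi n k)) j ↔ bm n k x ∈ first e j := by
  rw [mem_first, mem_first]
  constructor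
  · rintro ⟨t, h1, h2⟩
    refine ⟨t, h1, ?_⟩
    rw [← h2]
    exact (bm_bm (e t).2).symm
  · rintro ⟨t, h1, h2⟩
    refine ⟨t, h1, ?_⟩
    show bm n k (e t) = x
    rw [h2]
    exact bm_bm hx

theorem path_trans {n k : ℕ} {lam : Finset (ℕ × ℕ)}
    {e : Fin (k * (n - k)) ≃ {x // x ∈ R n k}}
    (h : IsPath lam e) : IsPath (compl n k lam) (e.trans (phi n k)) := by
  intro j hj
  obtain ⟨h1, h2⟩ := h j hj
  have e1 : compl n k lam \ first (e.trans (phi n k)) j =
      compl n k (lam ∪ ((R n k \ lam) ∩ first e j)) := by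
    ext x
    rw [mem_sdiff, mem_compl, mem_compl, mem_union, mem_inter, mem_sdiff]
    constructor
    · rintro ⟨⟨a1, a2⟩, a3⟩
      rw [mem_first_trans e j x a1] at a3
      exact ⟨a1, fun h => h.elim a2 fun h => a3 h.2⟩
    · rintro ⟨a1, a2⟩
      rw [mem_first_trans e j x a1]
      exact ⟨⟨a1, fun h => a2 (Or.inl h)⟩,
        fun h => a2 (Or.inr ⟨⟨bm_mem a1, fun h' => a2 (Or.inl h')⟩, h⟩)⟩
  have e2 : compl n k lam ∪ ((R n k \ compl n k lam) ∩ first (e.trans (phi n k)) j) =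
      compl n k (lam \ first e j) := by
    ext x
    rw [mem_union, mem_inter, mem_sdiff, mem_compl, mem_compl, mem_sdiff]
    constructor
    · rintro (⟨a1, a2⟩ | ⟨⟨a1, a2⟩, a3⟩)
      · exact ⟨a1, fun h => a2 h.1⟩
      · rw [mem_first_trans e j x a1] at a3
        exact ⟨a1, fun h => h.2 a3⟩
    · rintro ⟨a1, a2⟩
      rw [mem_first_trans e j x a1]
      by_cases h : bm n k x ∈ lam
      · right
        refine ⟨⟨a1, fun h' => h'.2 h⟩, ?_⟩
        by_contra h'
        exact a2 ⟨h, h'⟩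
      · exact Or.inl ⟨a1, h⟩
  rw [e1, e2]
  exact ⟨young_compl h2, young_compl h1⟩

/-! ### The weights -/

theorem label_bm {n k : ℕ} (hk : k ≤ n) {x : ℕ × ℕ} (h : x ∈ R n k) :
    label k (bm n k x) = n - label k x := by
  unfold R at h
  rw [mem_product, mem_Icc, mem_Icc] at h
  unfold label bm
  simp only
  omega

theorem label_lt {n k : ℕ} {x : ℕ × ℕ} (hk : k ≤ n) (h : x ∈ R n k) : label k x < n := by
  unfold R at h
  rw [mem_product, mem_Icc, mem_Icc] at h
  unfold label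
  omega

theorem label_pos {n k : ℕ} {x : ℕ × ℕ} (h : x ∈ R n k) : 0 < label k x := by
  unfold R at h
  rw [mem_product, mem_Icc, mem_Icc] at h
  unfold label
  omega

theorem m_zero {n k : ℕ} (e : Fin (k * (n - k)) ≃ {x // x ∈ R n k}) (j : ℕ) : m e j 0 = 0 := by
  unfold m
  split_ifs
  · rfl
  · rw [card_eq_zero, filter_eq_empty_iff]
    rintro t - ⟨-, h⟩
    have := label_pos (e t).2
    omega

theorem m_n {n k : ℕ} (e : Fin (k * (n - k)) ≃ {x // x ∈ R n k}) (j : ℕ) : m e j n = 0 := by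
  unfold m
  rw [if_pos rfl]

theorem m_trans {n k : ℕ} (hk : k ≤ n) (e : Fin (k * (n - k)) ≃ {x // x ∈ R n k}) (j i : ℕ)
    (hi : i ≤ n) :
    m (e.trans (phi n k)) j i = m e j (n - i) := by
  rcases Nat.eq_zero_or_pos i with h | h
  · subst h
    rw [m_zero, Nat.sub_zero, m_n]
  rcases Nat.lt_or_ge i n with h' | h'
  · unfold m
    rw [if_neg (by omega), if_neg (by omega)]
    congr 1
    ext t
    simp only [mem_filter, mem_univ, true_and]
    have h1 : label k (((e.trans (phi n k)) t : {x // x ∈ R n k}) : ℕ × ℕ) = n - label k (e t) :=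
      label_bm hk (e t).2
    have h2 := label_lt hk (e t).2
    rw [h1]
    constructor
    · rintro ⟨a1, a2⟩
      exact ⟨a1, by omega⟩
    · rintro ⟨a1, a2⟩
      exact ⟨a1, by omega⟩
  · have : i = n := by omega
    subst this
    rw [m_n, Nat.sub_self, m_zero]

theorem alpha_w {n k : ℕ} (hn : 2 ≤ n) (hk : k ≤ n) (e : Fin (k * (n - k)) ≃ {x // x ∈ R n k})
    (j : ℕ) : alpha n (w (e.trans (phi n k)) j) = w e j := by
  unfold w
  rw [map_sum]
  have h1 : ∀ i ∈ Icc 1 (n - 1), alpha n (hbar n * (m (e.trans (phi n k)) j i *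
      ((m (e.trans (phi n k)) j i : K n) - m (e.trans (phi n k)) j (i + 1))) +
      m (e.trans (phi n k)) j i * (a n (i + 1) - a n i)) =
      hbar n * (m e j (n - i) * ((m e j (n - i) : K n) - m e j (n - i - 1))) +
      m e j (n - i) * (a n (n - i + 1) - a n (n - i)) := by
    intro i hi
    rw [mem_Icc] at hi
    rw [m_trans hk e j i (by omega), m_trans hk e j (i + 1) (by omega)]
    simp only [map_add, map_mul, map_sub, map_natCast, alpha_hbar]
    rw [alpha_a n (i + 1) (by omega) (by omega), alpha_a n i (by omega) (by omega)]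
    rw [show n + 1 - (i + 1) = n - i by omega, show n + 1 - i = n - i + 1 by omega,
      show n - (i + 1) = n - i - 1 by omega]
    ring
  rw [sum_congr rfl h1]
  have h2 : ∑ i ∈ Icc 1 (n - 1), (hbar n * (m e j (n - i) * ((m e j (n - i) : K n) - m e j (n - i - 1))) +
      m e j (n - i) * (a n (n - i + 1) - a n (n - i))) =
      ∑ i ∈ Icc 1 (n - 1), (hbar n * (m e j i * ((m e j i : K n) - m e j (i - 1))) +
      m e j i * (a n (i + 1) - a n i)) := by
    apply sum_nbij' (fun i => n - i) (fun i => n - i)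
    · intro i hi
      rw [mem_Icc] at hi ⊢
      omega
    · intro i hi
      rw [mem_Icc] at hi ⊢
      omega
    · intro i hi
      rw [mem_Icc] at hi
      omega
    · intro i hi
      rw [mem_Icc] at hi
      omega
    · intro i hi
      rfl
  rw [h2]
  have h3 : ∑ i ∈ Icc 1 (n - 1), (m e j i : K n) * m e j (i - 1) =
      ∑ i ∈ Icc 1 (n - 1), (m e j i : K n) * m e j (i + 1) := by
    have a1 : ∀ N : ℕ, ∑ i ∈ Icc 1 N, (m e j i : K n) * m e j (i - 1) +
        (m e j N : K n) * m e j (N + 1) = ∑ i ∈ Icc 1 N, (m e j i : K n) * m e j (i + 1) := by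
      intro N
      induction N with
      | zero => simp [m_zero]
      | succ N ih =>
        rw [← insert_Icc_right_eq_Icc_add_one (by omega), sum_insert (by simp), sum_insert (by simp),
          ← ih, show N + 1 - 1 = N by omega]
        ring
    have a2 := a1 (n - 1)
    rw [show n - 1 + 1 = n by omega, m_n, Nat.cast_zero, mul_zero, add_zero] at a2
    exact a2
  have h4 : ∀ f : ℕ → K n, ∑ i ∈ Icc 1 (n - 1), (hbar n * (m e j i * ((m e j i : K n) - f i)) +
      m e j i * (a n (i + 1) - a n i)) = ∑ i ∈ Icc 1 (n - 1), (hbar n * (m e j i * m e j i) +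
      m e j i * (a n (i + 1) - a n i)) - hbar n * ∑ i ∈ Icc 1 (n - 1), (m e j i : K n) * f i := by
    intro f
    rw [mul_sum, ← sum_sub_distrib]
    apply sum_congr rfl
    intro i _
    ring
  rw [h4 (fun i => (m e j (i - 1) : K n)), h4 (fun i => (m e j (i + 1) : K n)), h3]

/-- **Theorem.** `𝕍(λ) = α(𝕍(λ^c))` for every partition `λ` in the `(n - k) × k` rectangle. -/
theorem result : ∀ n : ℕ, 2 ≤ n → ∃ alpha : K n ≃ₐ[ℂ] K n,
    alpha (hbar n) = hbar n ∧ (∀ i : ℕ, 1 ≤ i → i ≤ n → alpha (a n i) = - a n (n + 1 - i)) ∧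
    ∀ k : ℕ, 1 ≤ k → k ≤ n - 1 → ∀ lam : Finset (ℕ × ℕ), IsYoung n k lam →
      V n k lam = alpha (V n k (compl n k lam)) := by
  intro n hn
  refine ⟨alpha n, alpha_hbar n, alpha_a n, ?_⟩
  intro k hk1 hk2 lam hlam
  classical
  unfold V
  rw [map_sum]
  refine sum_nbij' (fun e => e.trans (phi n k)) (fun e => e.trans (phi n k)) ?_ ?_ ?_ ?_ ?_
  · intro e he
    rw [mem_filter] at he ⊢
    exact ⟨mem_univ _, path_trans he.2⟩
  · intro e he
    rw [mem_filter] at he ⊢
    refine ⟨mem_univ _, ?_⟩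
    have := path_trans he.2
    rwa [compl_compl hlam.1] at this
  · intro e _
    ext t : 2
    exact bm_bm (e t).2
  · intro e _
    ext t : 2
    exact bm_bm (e t).2
  · intro e _
    rw [map_prod]
    apply prod_congr rfl
    intro j _
    rw [map_div₀, map_one, alpha_w hn (by omega)]

end Pool.Agent.Results.MP_5ac669_co.ComplementSymmetry
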